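import Pool.Agent.Lib.MP_5349a4_pr.M.Iface1
import Pool.Agent.Lib.MP_5349a4_pr.M.Base

/-!
# Module BK: the van den Berg-Kesten inequality for the Poisson process

Proof. By the subset formula (P5), `P(A) P(B) = exp (-ρ) E #{I ⊆ P : A I, B (P \ I)}` and
`P(A ∘ B) = exp (-ρ) E #{I ⊆ P : I ∈ A ∘ B}`, so the inequality follows from the pointwise
inequality of the two counts, which is an induction on the number of points.
-/

set_option autoImplicit false
open MeasureTheory Set
open scoped ENNReal NNReal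

namespace Pool.Agent.Lib.MP_5349a4_pr.H92

open Classical in
/-- The pointwise inequality, for a relation `R` increasing in both arguments. -/
theorem count_le {E : Type} (S : Finset E) :
    ∀ R : Set E → Set E → Prop,
      (∀ P P' Q Q' : Set E, P ⊆ P' → Q ⊆ Q' → R P Q → R P' Q') →
      ∑ t ∈ S.powerset, ind (∃ J : Set E, J ⊆ ↑t ∧ R J (↑t \ J))
        ≤ ∑ t ∈ S.powerset, ind (R ↑t (↑S \ ↑t)) := by
  induction S using Finset.induction_on with
  | empty =>
    intro R hR
    simp only [Finset.powerset_empty, Finset.sum_singleton, Finset.coe_empty]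
    refine ind_mono ?_
    rintro ⟨J, hJ, h⟩
    exact hR _ _ _ _ hJ (by simp) h
  | insert e S he ih =>
    intro R hR
    rw [Finset.sum_powerset_insert he, Finset.sum_powerset_insert he]
    set RA : Set E → Set E → Prop := fun J K => R (insert e J) K with hRA
    set RB : Set E → Set E → Prop := fun J K => R J (insert e K) with hRB
    have hA : ∀ P P' Q Q' : Set E, P ⊆ P' → Q ⊆ Q' → RA P Q → RA P' Q' :=
      fun P P' Q Q' h h' hh => hR _ _ _ _ (insert_subset_insert h) h' hh
    have hB : ∀ P P' Q Q' : Set E, P ⊆ P' → Q ⊆ Q' → RB P Q → RB P' Q' :=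
      fun P P' Q Q' h h' hh => hR _ _ _ _ h (insert_subset_insert h') hh
    have h1 := ih RA hA
    have h2 := ih RB hB
    have key : ∀ t ∈ S.powerset,
        ind (∃ J : Set E, J ⊆ ↑t ∧ R J (↑t \ J))
          + ind (∃ J : Set E, J ⊆ ↑(insert e t) ∧ R J (↑(insert e t) \ J))
        ≤ ind (∃ J : Set E, J ⊆ ↑t ∧ RA J (↑t \ J)) + ind (∃ J : Set E, J ⊆ ↑t ∧ RB J (↑t \ J)) := by
      intro t ht
      have hte : e ∉ t := fun h => he (Finset.mem_powerset.1 ht h)
      by_cases h0 : ∃ J : Set E, J ⊆ ↑t ∧ R J (↑t \ J)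
      · obtain ⟨J, hJ, hR0⟩ := h0
        have ha : ∃ J : Set E, J ⊆ ↑t ∧ RA J (↑t \ J) :=
          ⟨J, hJ, hR _ _ _ _ (subset_insert _ _) (le_refl _) hR0⟩
        have hb : ∃ J : Set E, J ⊆ ↑t ∧ RB J (↑t \ J) :=
          ⟨J, hJ, hR _ _ _ _ (le_refl _) (subset_insert _ _) hR0⟩
        rw [ind_of ha, ind_of hb]
        exact add_le_add (ind_le_one _) (ind_le_one _)
      · rw [ind_not h0, zero_add]
        refine le_trans (ind_mono ?_) (ind_or_le _ _)
        rintro ⟨J, hJ, hR0⟩
        by_cases heJ : e ∈ J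
        · left
          refine ⟨J \ {e}, ?_, ?_⟩
          · intro a ha
            have := hJ ha.1
            rw [Finset.coe_insert] at this
            exact this.resolve_left ha.2
          · refine hR _ _ _ _ ?_ ?_ hR0
            · intro a ha
              by_cases hae : a = e
              · exact Or.inl hae
              · exact Or.inr ⟨ha, hae⟩
            · intro a ha
              have hae : a ≠ e := fun h => ha.2 (h ▸ heJ)
              have := ha.1
              rw [Finset.coe_insert] at this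
              exact ⟨this.resolve_left hae, fun h => ha.2 h.1⟩
        · right
          refine ⟨J, ?_, ?_⟩
          · intro a ha
            have := hJ ha
            rw [Finset.coe_insert] at this
            exact this.resolve_left (fun h => heJ (h ▸ ha))
          · refine hR _ _ _ _ (le_refl _) ?_ hR0
            intro a ha
            have := ha.1
            rw [Finset.coe_insert] at this
            rcases this with h | h
            · exact Or.inl h
            · exact Or.inr ⟨h, ha.2⟩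
    calc ∑ t ∈ S.powerset, ind (∃ J : Set E, J ⊆ ↑t ∧ R J (↑t \ J))
          + ∑ t ∈ S.powerset, ind (∃ J : Set E, J ⊆ ↑(insert e t) ∧ R J (↑(insert e t) \ J))
        ≤ ∑ t ∈ S.powerset, ind (∃ J : Set E, J ⊆ ↑t ∧ RA J (↑t \ J))
          + ∑ t ∈ S.powerset, ind (∃ J : Set E, J ⊆ ↑t ∧ RB J (↑t \ J)) := by
          rw [← Finset.sum_add_distrib, ← Finset.sum_add_distrib]
          exact Finset.sum_le_sum key
      _ ≤ ∑ t ∈ S.powerset, ind (RA ↑t (↑S \ ↑t)) + ∑ t ∈ S.powerset, ind (RB ↑t (↑S \ ↑t)) :=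
          add_le_add h1 h2
      _ ≤ _ := by
          rw [add_comm]
          refine add_le_add (Finset.sum_le_sum fun t ht => ind_mono ?_)
            (Finset.sum_le_sum fun t ht => ind_mono ?_)
          · intro h
            refine hR _ _ _ _ (le_refl _) ?_ h
            intro a ha
            rcases ha with ha | ha
            · subst ha
              exact ⟨by simp, fun h => he (Finset.mem_powerset.1 ht h)⟩
            · exact ⟨by rw [Finset.coe_insert]; exact Or.inr ha.1, ha.2⟩
          · intro h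
            refine hR _ _ _ _ ?_ ?_ h
            · rw [Finset.coe_insert]
            · intro a ha
              refine ⟨by rw [Finset.coe_insert]; exact Or.inr ha.1, ?_⟩
              rw [Finset.coe_insert]
              rintro (h | h)
              · exact he (h ▸ ha.1)
              · exact ha.2 h

open Classical in
/-- The same with sums over the subsets of a finite set. -/
theorem tcount_le {E : Type} (P : Set E) (hP : P.Finite) (R : Set E → Set E → Prop)
    (hR : ∀ P P' Q Q' : Set E, P ⊆ P' → Q ⊆ Q' → R P Q → R P' Q') :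
    ∑' I : {I : Set E // I ⊆ P}, ind (∃ J : Set E, J ⊆ I.1 ∧ R J (I.1 \ J))
      ≤ ∑' I : {I : Set E // I ⊆ P}, ind (R I.1 (P \ I.1)) := by
  obtain ⟨S, rfl⟩ := hP.exists_finset_coe
  let e : {t // t ∈ S.powerset} ≃ {I : Set E // I ⊆ ↑S} :=
    { toFun := fun t => ⟨↑t.1, by exact_mod_cast Finset.mem_powerset.1 t.2⟩
      invFun := fun I => ⟨(S.finite_toSet.subset I.2).toFinset, by
        rw [Finset.mem_powerset]
        intro a ha
        have := I.2 ((Set.Finite.mem_toFinset _).1 ha)
        exact_mod_cast this⟩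
      left_inv := fun t => by
        apply Subtype.ext
        ext a
        simp
      right_inv := fun I => by
        apply Subtype.ext
        simp }
  have hsum : ∀ g : Set E → ℝ≥0∞,
      ∑' I : {I : Set E // I ⊆ ↑S}, g I.1 = ∑ t ∈ S.powerset, g ↑t := by
    intro g
    rw [← e.tsum_eq (fun I => g I.1)]
    exact Finset.tsum_subtype S.powerset (fun t => g ↑t)
  rw [hsum (fun I => ind (∃ J : Set E, J ⊆ I ∧ R J (I \ J))), hsum (fun I => ind (R I (↑S \ I)))]
  exact count_le S R hR

/-- `A ∘ B` for increasing events -/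
def cir {E : Type} (A B : Set E → Prop) (P : Set E) : Prop := ∃ I : Set E, I ⊆ P ∧ A I ∧ B (P \ I)

theorem cir_mono {E : Type} {A B : Set E → Prop} (hB : ∀ P Q, P ⊆ Q → B P → B Q) :
    ∀ P Q : Set E, P ⊆ Q → cir A B P → cir A B Q := by
  rintro P Q h ⟨I, hI, hA, hB'⟩
  exact ⟨I, hI.trans h, hA, hB _ _ (sdiff_subset_sdiff_left h) hB'⟩

theorem cir_meas (hM : MSumStatement) {E : Type} [MeasurableSpace E] [StandardBorelSpace E]
    {A B : Set E → Prop} (hA : ME A) (hB : ME B) : ME (cir A B) := by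
  have h := hM.2.2 Unit E (fun _ I J => A I ∧ B J) (by
    have h1 : MeasurableSet {q : Unit × Cfg E × Cfg E | A (pt q.2.1)} :=
      (measurable_fst.comp measurable_snd) hA
    have h2 : MeasurableSet {q : Unit × Cfg E × Cfg E | B (pt q.2.2)} :=
      (measurable_snd.comp measurable_snd) hB
    exact h1.inter h2)
  have h3 : Measurable fun ω : Cfg E => ((), ω) := measurable_prodMk_left
  exact h3 h

theorem bk2 (hS : SubsStatement) (hM : MSumStatement) (hP : ProbStatement) (E : Type)
    [MeasurableSpace E] [StandardBorelSpace E] (ρ : Measure E) [IsFiniteMeasure ρ]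
    [NullSingletonClass ρ] (A B : Set E → Prop) (hA : ME A) (hB : ME B)
    (mA : ∀ P Q, P ⊆ Q → A P → A Q) (mB : ∀ P Q, P ⊆ Q → B P → B Q) :
    PL ρ {ω | cir A B (pt ω)} ≤ PL ρ {ω | A (pt ω)} * PL ρ {ω | B (pt ω)} := by
  have hp : IsProbabilityMeasure (PL ρ) := (hP E ρ).1
  have hC : ME (cir A B) := cir_meas hM hA hB
  set c := ENNReal.ofReal (Real.exp (ρ univ).toReal) with hc
  have hc0 : c ≠ 0 := by
    rw [hc]; simpa using Real.exp_pos _
  have hct : c ≠ ∞ := ENNReal.ofReal_ne_top
  have mfst : Measurable fun q : Cfg E × Cfg E => ind (cir A B (pt q.1)) :=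
    (measurable_ind hC).comp measurable_fst
  have mAB : Measurable fun q : Cfg E × Cfg E => ind (A (pt q.1) ∧ B (pt q.2)) := by
    apply measurable_ind
    exact (measurable_fst hA).inter (measurable_snd hB)
  have e1 := hS E ρ (fun I _ => ind (cir A B I)) mfst
  have e2 := hS E ρ (fun I J => ind (A I ∧ B J)) mAB
  have l1 : ∫⁻ ω, ∫⁻ _ω' : Cfg E, ind (cir A B (pt ω)) ∂PL ρ ∂PL ρ = PL ρ {ω | cir A B (pt ω)} := by
    simp only [lintegral_const, measure_univ, mul_one]
    exact lintegral_ind hC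
  have l2 : ∫⁻ ω, ∫⁻ ω', ind (A (pt ω) ∧ B (pt ω')) ∂PL ρ ∂PL ρ
      = PL ρ {ω | A (pt ω)} * PL ρ {ω | B (pt ω)} := by
    simp only [ind_and]
    have : ∀ ω : Cfg E, ∫⁻ ω', ind (A (pt ω)) * ind (B (pt ω')) ∂PL ρ
        = ind (A (pt ω)) * PL ρ {ω | B (pt ω)} := by
      intro ω
      rw [lintegral_const_mul _ (measurable_ind hB), lintegral_ind hB]
    simp only [this]
    rw [lintegral_mul_const _ (measurable_ind hA), lintegral_ind hA]
  rw [l1] at e1
  rw [l2] at e2
  have hle : ∫⁻ ω, ∑' I : {I : Set E // I ⊆ pt ω}, ind (cir A B I.1) ∂PL ρ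
      ≤ ∫⁻ ω, ∑' I : {I : Set E // I ⊆ pt ω}, ind (A I.1 ∧ B (pt ω \ I.1)) ∂PL ρ := by
    refine lintegral_mono fun ω => ?_
    exact tcount_le (pt ω) (pt_finite ω) (fun I J => A I ∧ B J)
      (fun P P' Q Q' h h' hh => ⟨mA _ _ h hh.1, mB _ _ h' hh.2⟩)
  rw [e1, e2] at hle
  exact (ENNReal.mul_le_mul_iff_right hc0 hct).1 hle

theorem bk (hS : SubsStatement) (hM : MSumStatement) (hP : ProbStatement) : BkStatement := by
  intro E _ _ ρ _ _ A B C hA hB hC mA mB mC
  constructor
  · refine le_trans (measure_mono ?_) (bk2 hS hM hP E ρ A B hA hB mA mB)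
    rintro ω ⟨P₁, P₂, h1, h2, hd, ha, hb⟩
    exact ⟨P₁, h1, ha, mB _ _ (fun a ha' => ⟨h2 ha', fun h => hd.le_bot ⟨h, ha'⟩⟩) hb⟩
  · have hD : ME (cir A B) := cir_meas hM hA hB
    refine le_trans (measure_mono ?_) ((bk2 hS hM hP E ρ (cir A B) C hD hC (cir_mono mB) mC).trans
      (mul_le_mul_left (bk2 hS hM hP E ρ A B hA hB mA mB) _))
    rintro ω ⟨P₁, P₂, P₃, h1, h2, h3, d12, d13, d23, ha, hb, hc⟩
    refine ⟨P₁ ∪ P₂, union_subset h1 h2, ⟨P₁, subset_union_left, ha, ?_⟩, ?_⟩
    · exact mB _ _ (fun a ha' => ⟨Or.inr ha', fun h => d12.le_bot ⟨h, ha'⟩⟩) hb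
    · refine mC _ _ (fun a ha' => ⟨h3 ha', ?_⟩) hc
      rintro (h | h)
      · exact d13.le_bot ⟨h, ha'⟩
      · exact d23.le_bot ⟨h, ha'⟩

end Pool.Agent.Lib.MP_5349a4_pr.H92
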