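import Pool.Agent.Lib.MP_5349a4_pr.M.Iface1
import Pool.Agent.Lib.MP_5349a4_pr.M.Base

/-!
# Module TG: the tree-graph inequality (2.2)
-/

set_option autoImplicit false
open MeasureTheory Set
open scoped ENNReal NNReal

namespace Pool.Agent.Lib.MP_5349a4_pr.H92

theorem cl_mono' {E : Type} {adj : E → E → Prop} {P Q : Set E} (h : P ⊆ Q) (x : E) :
    cl adj P x ⊆ cl adj Q x := by
  intro p hp
  have hle : step adj P ≤ step adj Q := fun a b hab => ⟨hab.1, h hab.2⟩
  exact Relation.ReflTransGen.mono hle x p hp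

theorem hs_mono' {E : Type} {adj : E → E → Prop} {s : E → Prop} {P Q : Set E} (h : P ⊆ Q) (x : E)
    (hs : Hs adj s P x) : Hs adj s Q x := by
  obtain ⟨a, ha, hsa⟩ := hs
  exact ⟨a, cl_mono' h x ha, hsa⟩

theorem con_mono' {E : Type} {adj : E → E → Prop} {P Q : Set E} (h : P ⊆ Q) (x y : E)
    (hs : Con adj P x y) : Con adj Q x y := hs_mono' (s := fun a => adj a y) h x hs

/-- the event at the branch point -/
def br {E : Type} (adj : E → E → Prop) (s t : E → Prop) (x b : E) (P : Set E) : Prop :=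
  ∃ I ⊆ P, (∃ J ⊆ I, Con adj J x b ∧ Hs adj s (I \ J) b) ∧ Hs adj t (P \ I) b

theorem br_mono {E : Type} {adj : E → E → Prop} {s t : E → Prop} {x b : E} {P Q : Set E}
    (h : P ⊆ Q) (hb : br adj s t x b P) : br adj s t x b Q := by
  obtain ⟨I, hI, h1, h2⟩ := hb
  exact ⟨I, hI.trans h, h1, hs_mono' (sdiff_subset_sdiff_left h) _ h2⟩

theorem meas_con (hC : ConMStatement) {E : Type} [MeasurableSpace E] [StandardBorelSpace E]
    {adj : E → E → Prop} (ha : MAdj adj) (x : E) :
    MeasurableSet {q : E × Cfg E | Con adj (pt q.2) x q.1} := by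
  have h := (hC E adj ha).1
  exact (measurable_const.prodMk (measurable_fst.prodMk measurable_snd)) h

theorem meas_hs (hC : ConMStatement) {E : Type} [MeasurableSpace E] [StandardBorelSpace E]
    {adj : E → E → Prop} (ha : MAdj adj) {s : E → Prop} (hs : MeasurableSet {a | s a}) :
    MeasurableSet {q : E × Cfg E | Hs adj s (pt q.2) q.1} := by
  have h := (hC E adj ha).2.1 (fun _ a => s a) (measurable_snd hs)
  have hm : Measurable fun q : E × Cfg E => (q.1, q.1, q.2) :=
    measurable_fst.prodMk (measurable_fst.prodMk measurable_snd)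
  exact hm h

theorem meas_br (hM : MSumStatement) (hC : ConMStatement) {E : Type} [MeasurableSpace E]
    [StandardBorelSpace E] {adj : E → E → Prop} (ha : MAdj adj) {s t : E → Prop}
    (hs : MeasurableSet {a | s a}) (ht : MeasurableSet {a | t a}) (x : E) :
    MeasurableSet {q : E × Cfg E | br adj s t x q.1 (pt q.2)} := by
  have m1 : MeasurableSet {q : E × Cfg E |
      ∃ J ⊆ pt q.2, (Con adj J x q.1 ∧ Hs adj s (pt q.2 \ J) q.1)} := by
    refine hM.2.2 E E (fun b J K => Con adj J x b ∧ Hs adj s K b) ?_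
    have h1 : MeasurableSet {q : E × Cfg E × Cfg E | Con adj (pt q.2.1) x q.1} :=
      (measurable_fst.prodMk (measurable_fst.comp measurable_snd)) (meas_con hC ha x)
    have h2 : MeasurableSet {q : E × Cfg E × Cfg E | Hs adj s (pt q.2.2) q.1} :=
      (measurable_fst.prodMk (measurable_snd.comp measurable_snd)) (meas_hs hC ha hs)
    exact h1.inter h2
  refine hM.2.2 E E (fun b I K => (∃ J ⊆ I, Con adj J x b ∧ Hs adj s (I \ J) b) ∧ Hs adj t K b) ?_
  have h1 : MeasurableSet {q : E × Cfg E × Cfg E |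
      ∃ J ⊆ pt q.2.1, (Con adj J x q.1 ∧ Hs adj s (pt q.2.1 \ J) q.1)} :=
    (measurable_fst.prodMk (measurable_fst.comp measurable_snd)) m1
  have h2 : MeasurableSet {q : E × Cfg E × Cfg E | Hs adj t (pt q.2.2) q.1} :=
    (measurable_fst.prodMk (measurable_snd.comp measurable_snd)) (meas_hs hC ha ht)
  exact h1.inter h2

theorem tg (hT : TreeStatement) (hB : BkStatement) (hK : MeckeStatement) (hM : MSumStatement)
    (hC : ConMStatement) (hP : ProbStatement) : TgStatement := by
  intro E _ _ ρ _ _ adj s t x ha hs ht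
  have mA : ∀ b, ME (fun P : Set E => Con adj P x b) := fun b =>
    (measurable_const.prodMk measurable_id : Measurable fun ω : Cfg E => (b, ω)) (meas_con hC ha x)
  have mS : ∀ b, ME (fun P : Set E => Hs adj s P b) := fun b =>
    (measurable_const.prodMk measurable_id : Measurable fun ω : Cfg E => (b, ω)) (meas_hs hC ha hs)
  have mT : ∀ b, ME (fun P : Set E => Hs adj t P b) := fun b =>
    (measurable_const.prodMk measurable_id : Measurable fun ω : Cfg E => (b, ω)) (meas_hs hC ha ht)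
  have mBr := meas_br hM hC ha hs ht x
  set E1 : Set (Cfg E) := {ω | ∃ P₁ P₂ : Set E, P₁ ⊆ pt ω ∧ P₂ ⊆ pt ω ∧ Disjoint P₁ P₂ ∧
    Hs adj s P₁ x ∧ Hs adj t P₂ x} with hE1
  set E2 : Set (Cfg E) := {ω | ∃ b ∈ pt ω, br adj s t x b (pt ω \ {b})} with hE2
  have hx : ∀ᵐ ω ∂PL ρ, x ∉ pt ω := by
    have := (hP E ρ).2 {x} (measurableSet_singleton x) (measure_singleton x)
    filter_upwards [this] with ω hω hx
    exact hω x hx rfl
  have hsub : ∀ᵐ ω ∂PL ρ, ω ∈ {ω | Hs adj s (pt ω) x ∧ Hs adj t (pt ω) x} → ω ∈ E1 ∪ E2 := by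
    filter_upwards [hx] with ω hω hh
    rcases hT E adj s t (pt ω) x hω hh.1 hh.2 with
      ⟨P₂, P₃, h2, h3, hd, a, b⟩ | ⟨b, hb, P₁, P₂, P₃, h1, h2, h3, d12, d13, d23, a1, a2, a3⟩
    · exact Or.inl ⟨P₂, P₃, h2, h3, hd, a, b⟩
    · refine Or.inr ⟨b, hb, P₁ ∪ P₂, union_subset h1 h2, ⟨P₁, subset_union_left, a1, ?_⟩, ?_⟩
      · have hss : P₂ ⊆ (P₁ ∪ P₂) \ P₁ := fun a ha' =>
          ⟨Or.inr ha', fun h => d12.le_bot ⟨h, ha'⟩⟩
        exact hs_mono' hss _ a2
      · have hss : P₃ ⊆ (pt ω \ {b}) \ (P₁ ∪ P₂) := by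
          intro a ha'
          refine ⟨h3 ha', ?_⟩
          rintro (h | h)
          · exact d13.le_bot ⟨h, ha'⟩
          · exact d23.le_bot ⟨h, ha'⟩
        exact hs_mono' hss _ a3
  have hB1 : PL ρ E1 ≤ hp adj ρ s x * hp adj ρ t x := by
    have := (hB E ρ (fun P => Hs adj s P x) (fun P => Hs adj t P x) (fun P => Hs adj t P x)
      (mS x) (mT x) (mT x) (fun P Q h => hs_mono' h x) (fun P Q h => hs_mono' h x)
      (fun P Q h => hs_mono' h x)).1
    exact this
  have hBr : ∀ b, PL ρ {ω | br adj s t x b (pt ω)}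
      ≤ tp adj ρ x b * (hp adj ρ s b * hp adj ρ t b) := by
    intro b
    have := (hB E ρ (fun P => Con adj P x b) (fun P => Hs adj s P b) (fun P => Hs adj t P b)
      (mA b) (mS b) (mT b) (fun P Q h => con_mono' h x b) (fun P Q h => hs_mono' h b)
      (fun P Q h => hs_mono' h b)).2
    rw [← mul_assoc]
    refine le_trans (measure_mono ?_) this
    rintro ω ⟨I, hI, ⟨J, hJ, h1, h2⟩, h3⟩
    exact ⟨J, I \ J, pt ω \ I, hJ.trans hI, sdiff_subset.trans hI, sdiff_subset,
      disjoint_sdiff_right, disjoint_sdiff_right.mono_left hJ,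
      disjoint_sdiff_right.mono_left sdiff_subset, h1, h2, h3⟩
  have hg : Measurable fun q : E × Cfg E => ind (br adj s t x q.1 (pt q.2)) := measurable_ind mBr
  have hmk := (hK E ρ (fun b P => ind (br adj s t x b P)) hg).2
  have hE2le : PL ρ E2 ≤ ∫⁻ b, tp adj ρ x b * (hp adj ρ s b * hp adj ρ t b) ∂ρ := by
    have hi : PL ρ E2 ≤ ∫⁻ ω, ∑' p : (pt ω : Set E),
        ind (br adj s t x p (pt ω \ {(p : E)})) ∂PL ρ := by
      classical
      have hm2 : MeasurableSet E2 := by
        have g1 : MeasurableSet {q : Cfg E × Cfg E | ∃ b ∈ pt q.2, br adj s t x b (pt q.1)} := by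
          refine hM.2.1 (Cfg E) E (fun ω b _ => br adj s t x b (pt ω)) ?_
          have : Measurable fun q : Cfg E × E × Cfg E => (q.2.1, q.1) :=
            (measurable_fst.comp measurable_snd).prodMk measurable_fst
          exact this mBr
        have g2 : MeasurableSet {q : Unit × Cfg E |
            ∃ I ⊆ pt q.2, ∃ b ∈ I, br adj s t x b (pt q.2 \ I)} := by
          refine hM.2.2 Unit E (fun _ I J => ∃ b ∈ I, br adj s t x b J) ?_
          have : Measurable fun q : Unit × Cfg E × Cfg E => (q.2.2, q.2.1) :=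
            (measurable_snd.comp measurable_snd).prodMk (measurable_fst.comp measurable_snd)
          exact this g1
        have g3 : E2 = {ω : Cfg E | ∃ I ⊆ pt ω, ∃ b ∈ I, br adj s t x b (pt ω \ I)} := by
          ext ω
          constructor
          · rintro ⟨b, hb, h⟩
            exact ⟨{b}, by simpa using hb, b, rfl, h⟩
          · rintro ⟨I, hI, b, hb, h⟩
            exact ⟨b, hI hb, br_mono (sdiff_subset_sdiff_right (by simpa using hb)) h⟩
        rw [g3]
        exact (measurable_prodMk_left : Measurable fun ω : Cfg E => ((), ω)) g2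
      have h1 : PL ρ E2 = ∫⁻ ω, E2.indicator 1 ω ∂PL ρ := (lintegral_indicator_one hm2).symm
      rw [h1]
      refine lintegral_mono fun ω => ?_
      by_cases hω : ω ∈ E2
      · rw [indicator_of_mem hω]
        obtain ⟨b, hb, hbr⟩ := hω
        refine le_trans ?_ (ENNReal.le_tsum (⟨b, hb⟩ : (pt ω : Set E)))
        rw [ind_of hbr]; rfl
      · rw [indicator_of_notMem hω]; exact zero_le
    refine hi.trans ?_
    rw [hmk]
    refine lintegral_mono fun b => ?_
    have hmb : MeasurableSet {ω : Cfg E | br adj s t x b (pt ω)} :=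
      (measurable_const.prodMk measurable_id : Measurable fun ω : Cfg E => (b, ω)) mBr
    rw [lintegral_ind hmb]
    exact hBr b
  calc PL ρ {ω | Hs adj s (pt ω) x ∧ Hs adj t (pt ω) x} ≤ PL ρ (E1 ∪ E2) := measure_mono_ae hsub
    _ ≤ PL ρ E1 + PL ρ E2 := measure_union_le _ _
    _ ≤ _ := add_le_add hB1 hE2le

end Pool.Agent.Lib.MP_5349a4_pr.H92
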